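import Pool.Agent.T6.H34.GE.Res

/-!
# Line bundles given by invariant hermitian forms
-/

set_option autoImplicit false
set_option maxHeartbeats 400000

namespace Pool.Agent.T6.H34.GE

open Pool.Agent.T6.H34.EK (Pres IsSemi isSemi_one isSemi_mul isSemi_inv semi QBundle IsCls NSs NS
  form coef integral semiample effective span nefCone effCone IsPullback nefEff IsAutGroup HasDomain)

open Filter Topology Asymptotics Complex
open Pool.Agent.W594.SYZ2 (IsHermitian)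
open Pool.Agent.W594.SYZ2.TQ (h_add_right h_smul_right h_zero_left h_zero_right h_neg_left
  h_sub_left h_re_symm)
open Pool.Agent.R895 (BlBundle act N1 N1s IsClass)
open Pool.Agent.T6.H34.GK (Lat kum IsGau std frm kap Nf Dat cs_of_psd kap_pos kap_ne
  exp_int_shift thE thB kum_spec thE_eq herm_differentiable)
open Pool.Agent.Y167 (AffGrp cone)

variable {n : ℕ} {G : Subgroup ((Fin n → ℂ) ≃ₗ[ℂ] (Fin n → ℂ))} {hG : PresLat G}
  {h : (Fin n → ℂ) → (Fin n → ℂ) → ℂ}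

/-- The form is invariant under `G`. -/
def Inv (G : Subgroup ((Fin n → ℂ) ≃ₗ[ℂ] (Fin n → ℂ))) (h : (Fin n → ℂ) → (Fin n → ℂ) → ℂ) : Prop :=
  ∀ g ∈ G, ∀ u w, h (g u) (g w) = h u w

theorem grp_spec (γ : grp G hG) : ∃ (g : G) (l : Fin n → ℂ), Lat l ∧
    ∀ v, act γ v = (g : (Fin n → ℂ) ≃ₗ[ℂ] (Fin n → ℂ)) v + l := by
  obtain ⟨g, hg, l, hl, h⟩ := γ.2
  exact ⟨⟨g, hg⟩, l, hl, h⟩

/-- The factor of automorphy with Chern form `4 κ h`. -/
noncomputable def qE (h : (Fin n → ℂ) → (Fin n → ℂ) → ℂ) (γ : grp G hG) (v : Fin n → ℂ) : ℂ :=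
  exp (4 * (Real.pi * kap * (h (act γ v) (act γ 0) - h (act γ 0) (act γ 0) / 2)))

theorem qE_eq (hh : IsHermitian h) {γ : grp G hG} {g : G} {l : Fin n → ℂ}
    (hγ : ∀ v, act γ v = (g : (Fin n → ℂ) ≃ₗ[ℂ] (Fin n → ℂ)) v + l) (v : Fin n → ℂ) :
    qE h γ v = exp (4 * (Real.pi * kap *
      (h ((g : (Fin n → ℂ) ≃ₗ[ℂ] (Fin n → ℂ)) v) l + h l l / 2))) := by
  unfold qE
  rw [hγ, hγ, map_zero, zero_add, hh.add_left]
  congr 3
  ring

theorem act_mul (γ δ : grp G hG) (v : Fin n → ℂ) : act (γ * δ) v = act γ (act δ v) := rfl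

theorem qE_mul (hh : IsHermitian h) (hint : ∀ u w, Lat u → Lat w → IsGau (h u w)) (hi : Inv G h)
    (γ δ : grp G hG) (v : Fin n → ℂ) :
    qE h (γ * δ) v = qE h γ (act δ v) * qE h δ v := by
  obtain ⟨g, l, h3, h4⟩ := grp_spec γ
  obtain ⟨g', k, h7, h8⟩ := grp_spec δ
  have h9 : ∀ v, act (γ * δ) v = ((g * g' : G) : (Fin n → ℂ) ≃ₗ[ℂ] (Fin n → ℂ)) v +
      ((g : (Fin n → ℂ) ≃ₗ[ℂ] (Fin n → ℂ)) k + l) := by
    intro v
    rw [act_mul, h8, h4, map_add, add_assoc]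
    rfl
  rw [qE_eq hh h9, qE_eq hh h4, qE_eq hh h8, h8]
  have hlk : Lat ((g : (Fin n → ℂ) ≃ₗ[ℂ] (Fin n → ℂ)) k) := hG g g.2 k h7
  have hz := hint _ l hlk h3
  have hgv : ((g * g' : G) : (Fin n → ℂ) ≃ₗ[ℂ] (Fin n → ℂ)) v =
    (g : (Fin n → ℂ) ≃ₗ[ℂ] (Fin n → ℂ)) ((g' : (Fin n → ℂ) ≃ₗ[ℂ] (Fin n → ℂ)) v) := rfl
  rw [hgv]
  set A : (Fin n → ℂ) ≃ₗ[ℂ] (Fin n → ℂ) := (g : (Fin n → ℂ) ≃ₗ[ℂ] (Fin n → ℂ)) with hA
  set B : (Fin n → ℂ) ≃ₗ[ℂ] (Fin n → ℂ) := (g' : (Fin n → ℂ) ≃ₗ[ℂ] (Fin n → ℂ)) with hB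
  have hiA : ∀ u w, h (A u) (A w) = h u w := hi g g.2
  rw [← exp_add]
  have hX : exp (4 * (Real.pi * kap * (h (A (B v + k)) l + h l l / 2))
      + 4 * (Real.pi * kap * (h (B v) k + h k k / 2))) =
      exp (4 * (Real.pi * kap * (h (A (B v + k)) l + h l l / 2 + (h (B v) k + h k k / 2)))) := by
    congr 1; ring
  rw [hX, ← exp_int_shift hz (h (A (B v + k)) l + h l l / 2 + (h (B v) k + h k k / 2))]
  congr 3
  have e1 : h l (A k) = (starRingEnd ℂ) (h (A k) l) := hh.symm _ _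
  have e2 : h (A k) l - (starRingEnd ℂ) (h (A k) l) = 2 * ((h (A k) l).im : ℂ) * I := by
    rw [Complex.sub_conj]; push_cast; ring
  have e5 : h (A k + l) (A k + l) = h k k + h (A k) l + (starRingEnd ℂ) (h (A k) l)
      + h l l := by
    rw [hh.add_left, h_add_right hh, h_add_right hh, e1, hiA]; ring
  have e6 : h (A (B v)) (A k + l) = h (B v) k + h (A (B v)) l := by
    rw [h_add_right hh, hiA]
  have e7 : h (A (B v + k)) l = h (A (B v)) l + h (A k) l := by rw [map_add, hh.add_left]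
  rw [e5, e6, e7]
  linear_combination (1 / 2 : ℂ) * (-e2)

theorem qE_one (hh : IsHermitian h) {γ : grp G hG} (hγ : act γ 0 = 0)
    (v : Fin n → ℂ) : qE h γ v = 1 := by
  unfold qE
  rw [hγ, h_zero_right hh, h_zero_right hh]
  simp

theorem act_pow {γ : grp G hG} {v : Fin n → ℂ} (hv : act γ v = v) (N : ℕ) : act (γ ^ N) v = v := by
  induction N with
  | zero => rfl
  | succ N ih => rw [pow_succ, act_mul, hv, ih]

theorem qE_pow (hh : IsHermitian h) (hint : ∀ u w, Lat u → Lat w → IsGau (h u w)) (hi : Inv G h)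
    {γ : grp G hG} {v : Fin n → ℂ} (hv : act γ v = v) (N : ℕ) :
    qE h (γ ^ N) v = qE h γ v ^ N := by
  induction N with
  | zero =>
    rw [pow_zero, pow_zero]
    exact qE_one hh rfl v
  | succ N ih => rw [pow_succ, qE_mul hh hint hi, hv, ih, pow_succ]

/-- The linear part of a power. -/
theorem spec_pow {γ : grp G hG} {g : G} {l : Fin n → ℂ}
    (hγ : ∀ v, act γ v = (g : (Fin n → ℂ) ≃ₗ[ℂ] (Fin n → ℂ)) v + l) (N : ℕ) :
    ∃ k : Fin n → ℂ, ∀ v, act (γ ^ N) v = ((g ^ N : G) : (Fin n → ℂ) ≃ₗ[ℂ] (Fin n → ℂ)) v + k := by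
  induction N with
  | zero => exact ⟨0, fun v => by rw [add_zero, pow_zero, pow_zero]; rfl⟩
  | succ N ih =>
    obtain ⟨k, hk⟩ := ih
    refine ⟨((g ^ N : G) : (Fin n → ℂ) ≃ₗ[ℂ] (Fin n → ℂ)) l + k, fun v => ?_⟩
    rw [pow_succ, act_mul, hk, hγ, map_add, add_assoc, pow_succ]
    rfl

variable [Fintype G]

theorem qE_stab (hh : IsHermitian h) (hint : ∀ u w, Lat u → Lat w → IsGau (h u w)) (hi : Inv G h)
    {γ : grp G hG} {v : Fin n → ℂ} (hv : act γ v = v) : qE h γ v ^ Fintype.card G = 1 := by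
  obtain ⟨g, l, -, h4⟩ := grp_spec γ
  obtain ⟨k, hk⟩ := spec_pow h4 (Fintype.card G)
  rw [pow_card_eq_one] at hk
  have h1 := hk v
  rw [act_pow hv] at h1
  have hk0 : k = 0 := by
    have h2 : v = v + k := h1
    exact (add_eq_left.1 h2.symm)
  rw [← qE_pow hh hint hi hv]
  refine qE_one hh ?_ v
  rw [hk, hk0, add_zero]
  rfl

/-- An eigenvalue of an element of `G`. -/
theorem eig_pow {γ : grp G hG} {u : Fin n → ℂ} {ζ : ℂ} (hu : u ≠ 0)
    (h1 : ∀ t : ℂ, act γ (t • u) = (t * ζ) • u) : act γ 0 = 0 ∧ ζ ^ Fintype.card G = 1 := by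
  have h0 : act γ 0 = 0 := by
    have := h1 0
    rwa [zero_smul, zero_mul, zero_smul] at this
  obtain ⟨g, l, -, h4⟩ := grp_spec γ
  have hl : l = 0 := by
    have := h4 0
    rw [h0, map_zero, zero_add] at this
    exact this.symm
  refine ⟨h0, ?_⟩
  have h2 : (g : (Fin n → ℂ) ≃ₗ[ℂ] (Fin n → ℂ)) u = ζ • u := by
    have := h1 1
    rw [one_smul, one_mul, h4, hl, add_zero] at this
    exact this
  have h3 : ∀ N : ℕ, ((g ^ N : G) : (Fin n → ℂ) ≃ₗ[ℂ] (Fin n → ℂ)) u = ζ ^ N • u := by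
    intro N
    induction N with
    | zero => rw [pow_zero, pow_zero, one_smul]; rfl
    | succ N ih =>
      rw [pow_succ]
      have : ((g ^ N * g : G) : (Fin n → ℂ) ≃ₗ[ℂ] (Fin n → ℂ)) u =
        ((g ^ N : G) : (Fin n → ℂ) ≃ₗ[ℂ] (Fin n → ℂ))
          ((g : (Fin n → ℂ) ≃ₗ[ℂ] (Fin n → ℂ)) u) := rfl
      rw [this, h2, map_smul, ih, smul_smul, pow_succ, mul_comm]
  have h5 := h3 (Fintype.card G)
  rw [pow_card_eq_one] at h5
  have h6 : (1 : ℂ) • u = ζ ^ Fintype.card G • u := by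
    rw [one_smul]
    exact h5
  exact (smul_left_injective ℂ hu h6).symm

/-- The line bundle with Chern form `4 |G| κ h` and coefficient `4 |G| b`. -/
noncomputable def qB [Nonempty (Fin n)] (hG : PresLat G) (hh : IsHermitian h)
    (hint : ∀ u w, Lat u → Lat w → IsGau (h u w)) (hi : Inv G h) (b : ℕ) :
    QBundle (grp G hG) where
  e := fun γ v => qE h γ v ^ Fintype.card G
  k := Fintype.card G * (4 * b)
  holo := fun γ => by
    obtain ⟨g, l, -, h4⟩ := grp_spec γ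
    have h5 : qE h γ = fun v => exp (4 * (Real.pi * kap *
        (h ((g : (Fin n → ℂ) ≃ₗ[ℂ] (Fin n → ℂ)) v) l + h l l / 2))) :=
      funext fun v => qE_eq hh h4 v
    rw [h5]
    have h6 : Differentiable ℂ fun v => h ((g : (Fin n → ℂ) ≃ₗ[ℂ] (Fin n → ℂ)) v) l :=
      (herm_differentiable hh l).comp (Pool.Agent.T6.H34.GK.differentiable_equiv _)
    exact (((h6.add_const _).const_mul _).const_mul _).cexp.pow _
  ne_zero := fun γ v => pow_ne_zero _ (exp_ne_zero _)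
  mul := fun γ δ v => by rw [qE_mul hh hint hi, mul_pow]
  stab := fun γ v hv _ => qE_stab hh hint hi hv
  exc := fun γ ζ hγ => by
    have h0 : act γ 0 = 0 := by rw [hγ, smul_zero]
    rw [qE_one hh h0, one_pow]
    have h7 : (Fintype.card G * (4 * b) : ℤ) = ((Fintype.card G * (4 * b) : ℕ) : ℤ) := by
      push_cast; ring
    rw [h7, zpow_natCast]
    obtain ⟨-, h8⟩ := eig_pow (γ := γ) (u := fun _ => 1) (ζ := ζ) (by
      intro h
      have := congrFun h (Classical.arbitrary (Fin n))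
      simp at this) fun t => by rw [hγ, smul_smul, mul_comm]
    rw [pow_mul, h8, one_pow]
  eig := fun γ u ζ hu h1 => by
    obtain ⟨h0, h8⟩ := eig_pow hu h1
    have h7 : (Fintype.card G * (4 * b) : ℤ) = ((Fintype.card G * (4 * b) : ℕ) : ℤ) := by
      push_cast; ring
    have h9 : qE h γ 0 ^ Fintype.card G = 1 := by rw [qE_one hh h0, one_pow]
    change qE h γ 0 ^ Fintype.card G = ζ ^ (Fintype.card G * (4 * b) : ℤ)
    rw [h9, h7, zpow_natCast, pow_mul, h8, one_pow]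

theorem norm_qE (hh : IsHermitian h) (hi : Inv G h) (γ : grp G hG) (v : Fin n → ℂ) :
    ‖qE h γ v‖ ^ 2 = Real.exp (Real.pi * (4 * kap * (h (act γ v) (act γ v)).re) -
      Real.pi * (4 * kap * (h v v).re)) := by
  obtain ⟨g, l, -, h4⟩ := grp_spec γ
  rw [qE_eq hh h4, norm_exp, ← Real.exp_nat_mul, h4]
  congr 1
  set A : (Fin n → ℂ) ≃ₗ[ℂ] (Fin n → ℂ) := (g : (Fin n → ℂ) ≃ₗ[ℂ] (Fin n → ℂ)) with hA
  have hiA : ∀ u w, h (A u) (A w) = h u w := hi g g.2
  have e1 : h (A v + l) (A v + l) = h v v + h (A v) l + (starRingEnd ℂ) (h (A v) l) + h l l := by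
    have e2 : h l (A v) = (starRingEnd ℂ) (h (A v) l) := hh.symm _ _
    rw [hh.add_left, h_add_right hh, h_add_right hh, e2, hiA]
    ring
  have e4 : (4 * (Real.pi * kap * (h (A v) l + h l l / 2)) : ℂ).re =
      4 * (Real.pi * kap * ((h (A v) l).re + (h l l).re / 2)) := by
    have : (4 * (Real.pi * kap * (h (A v) l + h l l / 2)) : ℂ) =
        ((4 * (Real.pi * kap) : ℝ) : ℂ) * (h (A v) l + h l l / 2) := by push_cast; ring
    rw [this, re_ofReal_mul, add_re]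
    have : (h l l / 2).re = (h l l).re / 2 := by
      rw [← Complex.div_ofNat_re]
    rw [this]
    ring
  rw [e1, e4, add_re, add_re, add_re, conj_re]
  push_cast
  ring

theorem re_const_mul (c : ℕ) (z : ℂ) : ((c : ℂ) * (4 * kap * z)).re = c * (4 * kap * z.re) := by
  have : (c : ℂ) * (4 * kap * z) = ((c * (4 * kap) : ℝ) : ℂ) * z := by push_cast; ring
  rw [this, re_ofReal_mul]
  ring

theorem qB_cls [Nonempty (Fin n)] (hG : PresLat G) (hh : IsHermitian h)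
    (hint : ∀ u w, Lat u → Lat w → IsGau (h u w)) (hi : Inv G h) (b : ℕ) :
    IsCls (qB hG hh hint hi b)
      (fun u w => (Fintype.card G : ℂ) * (4 * kap * h u w), (Fintype.card G : ℝ) * (4 * b)) := by
  refine ⟨⟨⟨fun u v w => ?_, fun a v w => ?_, fun v w => ?_⟩, fun _ => 0, differentiable_const _,
    fun γ v => ?_⟩, ?_⟩
  · dsimp only
    rw [hh.add_left]; ring
  · dsimp only
    rw [hh.smul_left]; ring
  · dsimp only
    rw [map_mul, map_mul, map_mul, conj_ofReal, ← hh.symm, Complex.conj_natCast]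
    congr 3
    exact (Complex.conj_natCast 4).symm
  · change ‖qE h γ v ^ Fintype.card G‖ ^ 2 = _
    rw [norm_pow, ← pow_mul, mul_comm, pow_mul, norm_qE hh hi, ← Real.exp_nat_mul]
    congr 1
    beta_reduce
    rw [re_const_mul, re_const_mul]
    simp only [zero_re]
    ring
  · change (Fintype.card G : ℝ) * (4 * b) = ((Fintype.card G * (4 * b) : ℤ) : ℝ)
    push_cast
    rfl

end Pool.Agent.T6.H34.GE
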