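import Pool.Agent.T6.H34.GE.Redu

/-!
# The covering
-/

set_option autoImplicit false
set_option maxHeartbeats 400000

namespace Pool.Agent.T6.H34.GE

open Pool.Agent.T6.H34.EK (Pres IsSemi isSemi_one isSemi_mul isSemi_inv semi QBundle IsCls NSs NS
  form coef integral semiample effective span nefCone effCone IsPullback nefEff IsAutGroup HasDomain)

open Filter Topology
open Pool.Agent.W594.SYZ2 (IsHermitian)
open Pool.Agent.R895 (BlBundle act N1 N1s IsClass Normalizes)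
open Pool.Agent.T6.H34.GK (Lat kum IsGau std frm kap Nf Dat cs_of_psd kap_pos kap_ne thB IsExt
  id_isExt lat exists_basis dat_of_isInt re_kap_div differentiable_equiv cut_int exists_vectors
  frm_add frm_smul frm_sub frm_zero frm_herm std_dat std_herm std_int std_pos std_nonneg
  one_le_std re_natMul le_std form_frm N1_ext' kap_im_eis xi)
open Pool.Agent.Y167 (AffGrp cone CData Pol Cp cone_ind cone_add cone_smul cone_sum cone_le
  mem_cone_self mem_cone_of_sum zero_mem_cone cone_cut cone_image)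

variable {n : ℕ} {G : Subgroup ((Fin n → ℂ) ≃ₗ[ℂ] (Fin n → ℂ))} {hG : PresLat G}
  {h : (Fin n → ℂ) → (Fin n → ℂ) → ℂ}

/-- The pullbacks by the automorphisms of the lattice which commute with `G`. -/
structure IsPb (hG : PresLat G) (g : NS (grp G hG) ≃ₗ[ℝ] NS (grp G hG))
    (u : (Fin n → ℂ) ≃ₗ[ℂ] (Fin n → ℂ)) : Prop where
  norm : Normalizes (grp G hG) u
  lat : ∀ v, Lat v → Lat (u v)
  lat' : ∀ v, Lat v → Lat (u.symm v)
  pb : IsPullback u g
  pb' : IsPullback u.symm g.symm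
  int : ∀ x ∈ integral (grp G hG), g x ∈ integral (grp G hG)
  int' : ∀ x ∈ integral (grp G hG), g.symm x ∈ integral (grp G hG)

theorem NfQ_of {g : NS (grp G hG) ≃ₗ[ℝ] NS (grp G hG)} {u : (Fin n → ℂ) ≃ₗ[ℂ] (Fin n → ℂ)}
    (hu : ∀ v, Lat v → Lat (u v)) (hp : IsPullback u g) {x : NS (grp G hG)} (hx : x ∈ NfQ hG) :
    g x ∈ NfQ hG := by
  have h3 : ∀ v w, frm (up (g x)) v w = frm (up x) (u v) (u w) := by
    intro v w
    unfold frm
    rw [form_up, form_up, hp.1]
  obtain ⟨k1, k2, k3⟩ := hx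
  refine ⟨fun v => ?_, by rw [coef_up, hp.2]; exact k2, fun v hv hv0 => ?_⟩
  · rw [h3]
    exact k1 _
  · rw [h3, coef_up, hp.2]
    exact k3 _ (hu v hv) (by simpa using hv0)

namespace IsPb

variable {g : NS (grp G hG) ≃ₗ[ℝ] NS (grp G hG)} {u : (Fin n → ℂ) ≃ₗ[ℂ] (Fin n → ℂ)}

theorem nf (h : IsPb hG g u) {x : NS (grp G hG)} (hx : x ∈ NfQ hG) : g x ∈ NfQ hG :=
  NfQ_of h.lat h.pb hx

theorem nf' (h : IsPb hG g u) {x : NS (grp G hG)} (hx : x ∈ NfQ hG) : g.symm x ∈ NfQ hG :=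
  NfQ_of h.lat' h.pb' hx

end IsPb

/-- The functional given by the lattice vector `w`. -/
noncomputable def phi (hG : PresLat G) (w : Fin n → ℂ) : NS (grp G hG) →ₗ[ℝ] ℝ :=
  (Pool.Agent.T6.H34.GK.phi 1 LinearMap.id w) ∘ₗ upL

theorem phi_apply (w : Fin n → ℂ) (x : NS (grp G hG)) :
    phi hG w x = (frm (up x) w w).re - coef x := rfl

section gens

variable [Fintype G] {F : Finset ((Fin n → ℂ) → (Fin n → ℂ) → ℂ)}
  {y : ((Fin n → ℂ) → (Fin n → ℂ) → ℂ) → NS (grp G hG)} {e : NS (grp G hG)}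

/-- The elements of the cone spanned by the forms in `F` and the class of `-Ẽ`. -/
theorem eq_sum (hy2 : ∀ z ∈ F, ∀ v w, frm (up (y z)) v w = c0 G * z v w)
    (hy3 : ∀ z ∈ F, coef (y z) = 0)
    (he2 : ∀ v w, frm (up e) v w = 0) (he3 : coef e = c0 G)
    (c : ((Fin n → ℂ) → (Fin n → ℂ) → ℂ) → ℝ) {x : NS (grp G hG)}
    (hx : ∀ v w, frm (up x) v w = ∑ z ∈ F, (c z : ℂ) * z v w) :
    x = (coef x / c0 G) • e + ∑ z ∈ F, (c z / c0 G) • y z := by
  classical
  have hc0 : (c0 G : ℝ) ≠ 0 := (c0_real (G := G)).ne'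
  have hc0' : (c0 G : ℂ) ≠ 0 := by exact_mod_cast (c0_pos (G := G)).ne'
  have hfs : ∀ (s : Finset ((Fin n → ℂ) → (Fin n → ℂ) → ℂ)) (v w : Fin n → ℂ), s ⊆ F →
      frm (up (∑ z ∈ s, (c z / c0 G) • y z)) v w = ∑ z ∈ s, (c z : ℂ) * z v w := by
    intro s v w
    induction s using Finset.induction_on with
    | empty => intro _; rw [Finset.sum_empty, Finset.sum_empty, up_zero, frm_zero]
    | insert z s hz ih =>
      intro hs
      rw [Finset.sum_insert hz, Finset.sum_insert hz, up_add, frm_add,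
        ih fun a ha => hs (Finset.mem_insert_of_mem ha), up_smul, frm_smul,
        hy2 z (hs (Finset.mem_insert_self _ _))]
      push_cast
      field_simp
  have hcs : ∀ s : Finset ((Fin n → ℂ) → (Fin n → ℂ) → ℂ), s ⊆ F →
      coef (∑ z ∈ s, (c z / c0 G) • y z) = 0 := by
    intro s
    induction s using Finset.induction_on with
    | empty => intro _; rw [Finset.sum_empty, coef_zero]
    | insert z s hz ih =>
      intro hs
      rw [Finset.sum_insert hz, coef_add, ih fun a ha => hs (Finset.mem_insert_of_mem ha),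
        coef_smul, hy3 z (hs (Finset.mem_insert_self _ _))]
      ring
  refine NS_ext (fun v w => ?_) ?_
  · rw [hx, up_add, frm_add, hfs F v w (Finset.Subset.refl _), up_smul, frm_smul, he2, mul_zero,
      zero_add]
  · rw [coef_add, hcs F (Finset.Subset.refl _), coef_smul, he3]
    field_simp
    ring

theorem re_c0 (z : ℂ) : ((c0 G : ℂ) * z).re = c0 G * z.re := re_natMul _ _

theorem cone_props [DecidableEq (NS (grp G hG))] (hF : ∀ z ∈ F, Dat z ∧ ∀ v, 0 ≤ (z v v).re)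
    (hy2 : ∀ z ∈ F, ∀ v w, frm (up (y z)) v w = c0 G * z v w)
    (hy3 : ∀ z ∈ F, coef (y z) = 0)
    (he2 : ∀ v w, frm (up e) v w = 0) (he3 : coef e = c0 G) {a : NS (grp G hG)}
    (ha : a ∈ cone (insert e (F.image y))) : (∀ v, 0 ≤ (frm (up a) v v).re) ∧ 0 ≤ coef a ∧
      ∀ w t : Fin n → ℂ, (∀ z ∈ F, (z t t).re ≤ (z w w).re) →
        (frm (up a) t t).re ≤ (frm (up a) w w).re := by
  have hc0 := c0_real (G := G)
  refine cone_ind (p := fun a => (∀ v, 0 ≤ (frm (up a) v v).re) ∧ 0 ≤ coef a ∧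
    ∀ w t : Fin n → ℂ, (∀ z ∈ F, (z t t).re ≤ (z w w).re) →
      (frm (up a) t t).re ≤ (frm (up a) w w).re) ?_ ?_ ?_ ?_ ha
  · refine ⟨fun v => ?_, le_of_eq coef_zero.symm, fun w t _ => ?_⟩
    · rw [up_zero, frm_zero, Complex.zero_re]
    · rw [up_zero, frm_zero, frm_zero]
  · rintro x y ⟨h1, h2, h3⟩ ⟨k1, k2, k3⟩
    refine ⟨fun v => ?_, by rw [coef_add]; exact add_nonneg h2 k2, fun w t hwt => ?_⟩
    · rw [up_add, frm_add, Complex.add_re]
      exact add_nonneg (h1 v) (k1 v)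
    · rw [up_add, frm_add, frm_add, Complex.add_re, Complex.add_re]
      exact add_le_add (h3 w t hwt) (k3 w t hwt)
  · rintro s x hs ⟨h1, h2, h3⟩
    refine ⟨fun v => ?_, by rw [coef_smul]; exact mul_nonneg hs h2, fun w t hwt => ?_⟩
    · rw [up_smul, frm_smul, Complex.re_ofReal_mul]
      exact mul_nonneg hs (h1 v)
    · rw [up_smul, frm_smul, frm_smul, Complex.re_ofReal_mul, Complex.re_ofReal_mul]
      exact mul_le_mul_of_nonneg_left (h3 w t hwt) hs
  · intro a ha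
    rcases Finset.mem_insert.1 ha with rfl | h
    · refine ⟨fun v => ?_, by rw [he3]; exact hc0.le, fun w t _ => ?_⟩
      · rw [he2, Complex.zero_re]
      · rw [he2, he2]
    · obtain ⟨z, hz, rfl⟩ := Finset.mem_image.1 h
      refine ⟨fun v => ?_, by rw [hy3 z hz], fun w t hwt => ?_⟩
      · rw [hy2 z hz, re_c0]
        exact mul_nonneg hc0.le ((hF z hz).2 v)
      · rw [hy2 z hz, hy2 z hz, re_c0, re_c0]
        exact mul_le_mul_of_nonneg_left (hwt z hz) hc0.le

end gens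

/-- **The covering.** -/
theorem covering [Fintype G] [Nonempty (Fin n)] (hG : PresLat G) :
    ∃ F₁ : Finset (NS (grp G hG)),
      (∀ a ∈ F₁, a ∈ LQ hG ∧ a ∈ NfQ hG) ∧
      ∀ x ∈ NfQ hG, (∃ t : ℝ, 0 < t ∧ ∀ v, t * (std v v).re ≤ (frm (up x) v v).re) →
        ∃ g u, IsPb hG g u ∧ g x ∈ cone F₁ := by
  classical
  obtain ⟨F, hF', hred⟩ := red_cls hG
  have hF : ∀ z ∈ F, Dat z ∧ ∀ v, 0 ≤ (z v v).re := fun z hz => (hF' z hz).1
  choose! y hy1 hy2 hy3' using fun z (hz : z ∈ F) => exists_cls hG (hF z hz).1 (hF' z hz).2 0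
  have hy3 : ∀ z ∈ F, coef (y z) = 0 := fun z hz => by rw [hy3' z hz]; norm_num
  have hzero : Dat fun _ _ : Fin n → ℂ => (0 : ℂ) :=
    ⟨⟨fun _ _ _ => by simp, fun _ _ _ => by simp, fun _ _ => by simp⟩, fun _ _ _ _ => IsGau.zero⟩
  obtain ⟨e, he1, he2', he3'⟩ := exists_cls hG hzero (fun _ _ _ _ => rfl) 1
  have he2 : ∀ v w, frm (up e) v w = 0 := fun v w => by rw [he2', mul_zero]
  have he3 : coef e = c0 G := by rw [he3']; norm_num
  obtain ⟨T, hT, hTle⟩ := exists_vectors F hF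
  have hS₀L : ∀ a ∈ insert e (F.image y), a ∈ LQ hG := by
    intro a ha
    rcases Finset.mem_insert.1 ha with rfl | h
    · exact AddSubgroup.subset_closure he1
    · obtain ⟨z, hz, rfl⟩ := Finset.mem_image.1 h
      exact AddSubgroup.subset_closure (hy1 z hz)
  obtain ⟨S', hS', hS'c⟩ := cut_int (insert e (F.image y)) hS₀L (T.image (phi hG)) (by
    intro φ hφ x hx
    obtain ⟨t, ht, rfl⟩ := Finset.mem_image.1 hφ
    obtain ⟨D, n, hn⟩ := dat_of_LQ hx
    obtain ⟨k, hk⟩ := D.val (hT t ht).1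
    exact ⟨k - n, by rw [phi_apply, hk, hn]; push_cast; rfl⟩)
  refine ⟨S', fun a ha => ⟨hS' a ha, ?_⟩, ?_⟩
  · obtain ⟨h1, h2⟩ := (hS'c a).1 (mem_cone_self ha)
    obtain ⟨k1, k2, k3⟩ := cone_props hF hy2 hy3 he2 he3 h1
    refine ⟨k1, k2, fun w hw hw0 => ?_⟩
    obtain ⟨t, ht, hle⟩ := hTle w hw hw0
    refine le_trans ?_ (k3 w t hle)
    have h3 := h2 _ (Finset.mem_image_of_mem (phi hG) ht)
    rw [phi_apply] at h3
    rw [coef_up]
    linarith
  · intro x hx hpd
    obtain ⟨u, hu1, hu2, hu3, c, hc, hsum⟩ := hred x hpd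
    have hu3' : ∀ g ∈ G, ∀ v, u.symm (g v) = g (u.symm v) := fun g hg v => by
      apply u.injective
      rw [u.apply_symm_apply, hu3 g hg, u.apply_symm_apply]
    have hu1' : ∀ v, Lat v → Lat (u.symm.symm v) := fun v hv => by
      rw [LinearEquiv.symm_symm]; exact hu1 v hv
    have hnm : Normalizes (grp G hG) u.symm := normalizes_of hu2 hu1' hu3'
    obtain ⟨g, g1, g2, g3, g4⟩ := exists_pull hnm
    have hg : IsPb hG g u.symm := ⟨hnm, hu2, hu1', g1, g2, g3, g4⟩
    have hgx : ∀ v w, frm (up (g x)) v w = ∑ z ∈ F, (c z : ℂ) * z v w := by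
      intro v w
      have h2 : frm (up (g x)) v w = frm (up x) (u.symm v) (u.symm w) := by
        unfold frm
        rw [form_up, form_up, g1.1]
      rw [h2, hsum]
      refine Finset.sum_congr rfl fun z _ => ?_
      rw [u.apply_symm_apply, u.apply_symm_apply]
    have h1 := eq_sum hy2 hy3 he2 he3 c hgx
    have hcc := c0_real (G := G)
    have hc0 : 0 ≤ coef (g x) / c0 G := by
      rw [g1.2]
      exact div_nonneg hx.2.1 hcc.le
    refine ⟨g, u.symm, hg, (hS'c _).2 ⟨?_, fun φ hφ => ?_⟩⟩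
    · rw [h1]
      refine cone_add (cone_smul (mem_cone_self (Finset.mem_insert_self _ _)) hc0)
        (mem_cone_of_sum F _ _ (fun z hz => Finset.mem_insert_of_mem
          (Finset.mem_image_of_mem _ hz)) fun z _ => div_nonneg (hc z) hcc.le)
    · obtain ⟨t, ht, rfl⟩ := Finset.mem_image.1 hφ
      rw [phi_apply]
      have := (hg.nf hx).2.2 t (hT t ht).1 (hT t ht).2
      rw [coef_up] at this
      linarith

end Pool.Agent.T6.H34.GE
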