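import Pool.Agent.T6.H34.EK.Defs
import Pool.Agent.T6.H34.GK.Defs

/-!
# Blow-ups of `E^n` modulo arbitrary finite groups, for `E = ℂ / ℤ[i]`: definitions
-/

set_option autoImplicit false

namespace Pool.Agent.T6.H34.GE

open Pool.Agent.T6.H34.EK (Pres semi)
open Pool.Agent.T6.H34.GK (Lat IsGau)
open Pool.Agent.Y167 (AffGrp)

/-- The lattice of the vectors whose coordinates are Gaussian integers. -/
def gauLat (n : ℕ) : AddSubgroup (Fin n → ℂ) where
  carrier := {v | Lat v}
  zero_mem' := fun _ => IsGau.zero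
  add_mem' := fun h1 h2 i => (h1 i).add (h2 i)
  neg_mem' := fun h i => (h i).neg

variable {n : ℕ}

/-- The group `G` maps the lattice `ℤ[i]^n` to itself. -/
abbrev PresLat (G : Subgroup ((Fin n → ℂ) ≃ₗ[ℂ] (Fin n → ℂ))) : Prop := Pres (gauLat n) G

/-- The group of the affine transformations `v ↦ g v + l` of `ℂ^n` where `g ∈ G` and `l` is a vector
of Gaussian integers. The quotient of `ℂ^n` by this group is `E^n / G` where `E = ℂ / ℤ[i]`. -/
noncomputable abbrev grp (G : Subgroup ((Fin n → ℂ) ≃ₗ[ℂ] (Fin n → ℂ))) (hG : PresLat G) :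
    AffGrp (Fin n → ℂ) := semi (gauLat n) G hG

end Pool.Agent.T6.H34.GE
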