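import Pool.Agent.T6.H34.GE.Geo

/-!
# Reduction theory and pullbacks
-/

set_option autoImplicit false
set_option maxHeartbeats 400000

namespace Pool.Agent.T6.H34.GE

open Pool.Agent.T6.H34.EK (Pres IsSemi isSemi_one isSemi_mul isSemi_inv semi QBundle IsCls NSs NS
  form coef integral semiample effective span nefCone effCone IsPullback nefEff IsAutGroup HasDomain)

open Filter Topology
open Pool.Agent.W594.SYZ2 (IsHermitian)
open Pool.Agent.R895 (BlBundle act N1 N1s IsClass Normalizes)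
open Pool.Agent.T6.H34.GK (Lat kum IsGau std frm kap Nf Dat cs_of_psd kap_pos kap_ne thB IsExt
  id_isExt lat exists_basis dat_of_isInt re_kap_div cjg cjg_apply cjg_mul pullB
  differentiable_equiv frm_add frm_smul frm_sub frm_zero frm_herm std_dat std_herm std_int
  std_pos std_nonneg one_le_std re_natMul le_std form_frm N1_ext' kap_im_eis xi)
open Pool.Agent.Y167 (AffGrp cone CData Pol)

variable {n : ℕ} {G : Subgroup ((Fin n → ℂ) ≃ₗ[ℂ] (Fin n → ℂ))} {hG : PresLat G}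
  {h : (Fin n → ℂ) → (Fin n → ℂ) → ℂ}

/-- The set of the endomorphisms given by the elements of `G`. -/
def gEnd (G : Subgroup ((Fin n → ℂ) ≃ₗ[ℂ] (Fin n → ℂ))) : Set (Module.End ℂ (Fin n → ℂ)) :=
  {a | ∃ g ∈ G, a = (g : (Fin n → ℂ) →ₗ[ℂ] (Fin n → ℂ))}

theorem exists_pol [Fintype G] (hG : PresLat G) :
    ∃ (d : ℕ) (b : Module.Basis (Fin d) ℝ (Fin n → ℂ)),
      Pol (fun u w : Fin n → ℂ => (kap : ℂ) * avg G std u w) (lat n) (gEnd G) d b := by
  obtain ⟨d, b, hb⟩ := exists_basis n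
  have hh : IsHermitian (avg G std) := avg_herm std_herm
  refine ⟨d, b, ⟨⟨fun u v w => ?_, fun a v w => ?_, fun v w => ?_⟩, fun v hv => ?_, hb,
    fun x hx y hy => ?_, ?_⟩⟩
  · rw [hh.add_left]; ring
  · rw [hh.smul_left]; ring
  · rw [map_mul, ← hh.symm, Complex.conj_ofReal]
  · rw [Complex.re_ofReal_mul]
    exact mul_pos kap_pos (lt_of_lt_of_le (std_pos hv) (std_le_avg v))
  · rw [Complex.im_ofReal_mul]
    exact kap_im_eis ((avg_dat hG std_dat).int x y hx hy)
  · rintro a ⟨g, hg, rfl⟩ x y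
    exact congrArg _ (avg_inv std g hg x y)

theorem form_span (x : NS (grp G hG)) :
    Pool.Agent.R895.form (up x) ∈ Submodule.span ℝ {z | Pol.IsInt (lat n) (gEnd G) z} := by
  obtain ⟨x, hx⟩ := x
  change x.1 ∈ _
  induction hx using Submodule.span_induction with
  | mem x hx =>
    obtain ⟨L, hL⟩ := hx
    refine Submodule.subset_span ⟨hL.1.1, ?_, fun u hu w hw => ?_⟩
    · rintro a ⟨g, hg, rfl⟩ u w
      exact chern_inv hL ⟨g, hg⟩ u w
    · obtain ⟨H, h1, h2, -⟩ := res_class hL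
      rw [h2]
      exact Pool.Agent.T6.H34.GK.chern_int h1 hu hw
  | zero => exact Submodule.zero_mem _
  | add x y _ _ h1 h2 => exact Submodule.add_mem _ h1 h2
  | smul t x _ h1 => exact Submodule.smul_mem _ t h1

/-- **Reduction theory.** -/
theorem red_cls [Fintype G] (hG : PresLat G) :
    ∃ F : Finset ((Fin n → ℂ) → (Fin n → ℂ) → ℂ),
      (∀ z ∈ F, (Dat z ∧ ∀ v, 0 ≤ (z v v).re) ∧ Inv G z) ∧
      ∀ x : NS (grp G hG), (∃ t : ℝ, 0 < t ∧ ∀ v, t * (std v v).re ≤ (frm (up x) v v).re) →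
        ∃ u : (Fin n → ℂ) ≃ₗ[ℂ] (Fin n → ℂ), (∀ v, Lat v → Lat (u v)) ∧
          (∀ v, Lat v → Lat (u.symm v)) ∧ (∀ g ∈ G, ∀ v, u (g v) = g (u v)) ∧
          ∃ c : ((Fin n → ℂ) → (Fin n → ℂ) → ℂ) → ℝ, (∀ z, 0 ≤ c z) ∧
            ∀ v w, frm (up x) v w = ∑ z ∈ F, c z * z (u v) (u w) := by
  classical
  obtain ⟨d, b, P⟩ := exists_pol hG
  obtain ⟨F, hF, hred⟩ := P.red
  obtain ⟨C, hC, hCs⟩ := avg_le_std G
  let sc : ((Fin n → ℂ) → (Fin n → ℂ) → ℂ) → ((Fin n → ℂ) → (Fin n → ℂ) → ℂ) :=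
    fun z u w => z u w / kap
  have hsc : Function.Injective sc := by
    intro z z' hzz
    funext u w
    have h1 : z u w / kap = z' u w / kap := congrFun (congrFun hzz u) w
    have h2 := kap_ne
    field_simp at h1
    exact h1
  refine ⟨F.image sc, fun z hz => ?_, fun x hx => ?_⟩
  · obtain ⟨z, hz', rfl⟩ := Finset.mem_image.1 hz
    obtain ⟨h1, h2⟩ := hF z hz'
    refine ⟨⟨?_, fun v => ?_⟩, fun g hg u w => ?_⟩
    · have h3 : Pol.IsInt (lat n) ∅ z := ⟨h1.herm, fun g hg => absurd hg (Set.notMem_empty g), h1.int⟩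
      exact dat_of_isInt h3
    · change 0 ≤ (z v v / kap).re
      rw [re_kap_div]
      exact div_nonneg (h2 v) kap_pos.le
    · change z (g u) (g w) / kap = z u w / kap
      have h3 : z (g u) (g w) = z u w := h1.inv _ ⟨g, hg, rfl⟩ u w
      rw [h3]
  · obtain ⟨t, ht, hxt⟩ := hx
    obtain ⟨u, hu1, hu2, hu3, c, hc, hsum⟩ := hred (Pool.Agent.R895.form (up x)) (form_span x)
      ⟨t / C, by positivity, fun v => by
        rw [form_frm, Complex.re_ofReal_mul, Complex.re_ofReal_mul]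
        have h1 := hxt v
        have h2 := kap_pos
        have h3 := hCs v
        have h4 : t / C * (kap * (avg G std v v).re) = kap * (t * ((avg G std v v).re / C)) := by
          field_simp
        rw [h4]
        refine mul_le_mul_of_nonneg_left (le_trans (mul_le_mul_of_nonneg_left ?_ ht.le) h1) h2.le
        rw [div_le_iff₀ hC, mul_comm]
        exact h3⟩
    refine ⟨u, fun v hv => hu1 v hv, fun v hv => hu2 v hv, fun g hg v => hu3 _ ⟨g, hg, rfl⟩ v,
      fun z => c fun u w => kap * z u w, fun z => hc _, fun v w => ?_⟩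
    rw [Finset.sum_image fun z _ z' _ h => hsc h]
    unfold frm
    rw [hsum, Finset.sum_div]
    refine Finset.sum_congr rfl fun z _ => ?_
    have h2 := kap_ne
    have h3 : (fun u w => (kap : ℂ) * sc z u w) = z := by
      funext u w
      change (kap : ℂ) * (z u w / kap) = z u w
      field_simp
    change (c z : ℂ) * z (u v) (u w) / kap =
      (c (fun u w => (kap : ℂ) * sc z u w) : ℂ) * (z (u v) (u w) / kap)
    rw [h3, mul_div_assoc]

section pullback

variable {V : Type*} [NormedAddCommGroup V] [NormedSpace ℂ V] [FiniteDimensional ℂ V]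
  {Γ : AffGrp V}

/-- The pullback of a line bundle by the automorphism given by `f`. -/
noncomputable def pullQ {f : V ≃ₗ[ℂ] V} (hf : Normalizes Γ f) (L : QBundle Γ) : QBundle Γ where
  toBlBundle := pullB hf L.toBlBundle
  eig := fun γ u ζ hu h1 => by
    change L.e (cjg hf γ) (f 0) = ζ ^ L.k
    rw [map_zero]
    refine L.eig _ (f u) ζ (fun h => hu (f.map_eq_zero_iff.1 h)) fun t => ?_
    rw [← map_smul, cjg_apply, h1, map_smul]

theorem isCls_pullQ {f : V ≃ₗ[ℂ] V} (hf : Normalizes Γ f) {L : QBundle Γ}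
    {x : (V → V → ℂ) × ℝ} (hL : IsCls L x) :
    IsCls (pullQ hf L) (fun v w => x.1 (f v) (f w), x.2) := by
  obtain ⟨⟨hH, F, hF, hFe⟩, h2⟩ := hL
  refine ⟨⟨⟨fun u v w => ?_, fun a v w => ?_, fun v w => ?_⟩,
    fun v => F (f v), hF.comp (differentiable_equiv f), fun γ v => ?_⟩, h2⟩
  · dsimp only
    rw [map_add, hH.add_left]
  · dsimp only
    rw [map_smul, hH.smul_left]
  · exact hH.symm _ _
  · have h3 := hFe (cjg hf γ) (f v)
    rw [cjg_apply] at h3
    exact h3

theorem pb_mem {f : V ≃ₗ[ℂ] V} (hf : Normalizes Γ f) {x : (V → V → ℂ) × ℝ} (hx : x ∈ NSs Γ) :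
    ((fun v w => x.1 (f v) (f w), x.2) : (V → V → ℂ) × ℝ) ∈ NSs Γ := by
  unfold NSs at hx
  induction hx using Submodule.span_induction with
  | mem x hx =>
    obtain ⟨L, hL⟩ := hx
    exact Submodule.subset_span ⟨_, isCls_pullQ hf hL⟩
  | zero => exact Submodule.zero_mem _
  | add x y _ _ h1 h2 => exact Submodule.add_mem _ h1 h2
  | smul t x _ h1 => exact Submodule.smul_mem _ t h1

omit [FiniteDimensional ℂ V] in
theorem normalizes_symm {f : V ≃ₗ[ℂ] V} (hf : Normalizes Γ f) : Normalizes Γ f.symm := by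
  intro γ
  have h1 := hf (f.symm.toAffineEquiv * γ * f.symm.toAffineEquiv⁻¹)
  have h2 : f.toAffineEquiv * (f.symm.toAffineEquiv * γ * f.symm.toAffineEquiv⁻¹) *
      f.toAffineEquiv⁻¹ = γ := by
    ext v
    change f (f.symm (γ (f (f.symm v)))) = γ v
    rw [f.apply_symm_apply, f.apply_symm_apply]
  rw [h2] at h1
  exact h1.symm

/-- The action of an automorphism on the classes. -/
theorem exists_pull {f : V ≃ₗ[ℂ] V} (hf : Normalizes Γ f) : ∃ g : NS Γ ≃ₗ[ℝ] NS Γ,
    IsPullback f g ∧ IsPullback f.symm g.symm ∧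
      (∀ x ∈ integral Γ, g x ∈ integral Γ) ∧ ∀ x ∈ integral Γ, g.symm x ∈ integral Γ := by
  have hf' := normalizes_symm hf
  let g : NS Γ ≃ₗ[ℝ] NS Γ :=
    { toFun := fun x => ⟨(fun v w => x.1.1 (f v) (f w), x.1.2), pb_mem hf x.2⟩
      map_add' := fun x y => rfl
      map_smul' := fun c x => rfl
      invFun := fun x => ⟨(fun v w => x.1.1 (f.symm v) (f.symm w), x.1.2), pb_mem hf' x.2⟩
      left_inv := fun x => by
        apply Subtype.ext
        refine Prod.ext ?_ rfl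
        funext v w
        change x.1.1 (f (f.symm v)) (f (f.symm w)) = x.1.1 v w
        rw [f.apply_symm_apply, f.apply_symm_apply]
      right_inv := fun x => by
        apply Subtype.ext
        refine Prod.ext ?_ rfl
        funext v w
        change x.1.1 (f.symm (f v)) (f.symm (f w)) = x.1.1 v w
        rw [f.symm_apply_apply, f.symm_apply_apply] }
  refine ⟨g, ⟨fun _ _ _ => rfl, fun _ => rfl⟩, ⟨fun _ _ _ => rfl, fun _ => rfl⟩, ?_, ?_⟩
  · rintro x ⟨L, hL⟩
    exact ⟨_, isCls_pullQ hf hL⟩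
  · rintro x ⟨L, hL⟩
    exact ⟨_, isCls_pullQ hf' hL⟩

end pullback

theorem conj_mem {f : (Fin n → ℂ) ≃ₗ[ℂ] (Fin n → ℂ)} (hf : ∀ v, Lat v → Lat (f v))
    (hc : ∀ g ∈ G, ∀ v, f (g v) = g (f v)) {γ : (Fin n → ℂ) ≃ᵃ[ℂ] (Fin n → ℂ)}
    (hγ : γ ∈ grp G hG) : f.toAffineEquiv * γ * f.toAffineEquiv⁻¹ ∈ grp G hG := by
  obtain ⟨g, hg, l, hl, h4⟩ := hγ
  refine ⟨g, hg, f l, hf l hl, fun v => ?_⟩
  change f (γ (f.symm v)) = _
  rw [h4, map_add, hc g hg, f.apply_symm_apply]

theorem normalizes_of {f : (Fin n → ℂ) ≃ₗ[ℂ] (Fin n → ℂ)} (hf : ∀ v, Lat v → Lat (f v))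
    (hf' : ∀ v, Lat v → Lat (f.symm v)) (hc : ∀ g ∈ G, ∀ v, f (g v) = g (f v)) :
    Normalizes (grp G hG) f := by
  have hc' : ∀ g ∈ G, ∀ v, f.symm (g v) = g (f.symm v) := fun g hg v => by
    apply f.injective
    rw [f.apply_symm_apply, hc g hg, f.apply_symm_apply]
  intro γ
  refine ⟨fun h => conj_mem hf hc h, fun h => ?_⟩
  have h1 := conj_mem hf' hc' h
  have h2 : f.symm.toAffineEquiv * (f.toAffineEquiv * γ * f.toAffineEquiv⁻¹) *
      f.symm.toAffineEquiv⁻¹ = γ := by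
    ext v i
    change f.symm (f (γ (f.symm (f v)))) i = γ v i
    rw [f.symm_apply_apply, f.symm_apply_apply]
  rwa [h2] at h1

end Pool.Agent.T6.H34.GE
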