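import Pool.Agent.T6.H34.GK.Main
import Pool.Agent.T6.H34.GE.Defs

/-!
# Restriction to the translations
-/

set_option autoImplicit false
set_option maxHeartbeats 400000

namespace Pool.Agent.T6.H34.GE

open Pool.Agent.T6.H34.EK (Pres IsSemi isSemi_one isSemi_mul isSemi_inv semi QBundle IsCls NSs NS
  form coef integral semiample effective span nefCone effCone IsPullback nefEff IsAutGroup HasDomain)

open Filter Topology Asymptotics
open Pool.Agent.W594.SYZ2 (IsHermitian)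
open Pool.Agent.R895 (BlBundle act N1 N1s IsClass)
open Pool.Agent.T6.H34.GK (Lat kum IsGau std frm kap Nf Dat cs_of_psd kap_pos kap_ne)
open Pool.Agent.Y167 (AffGrp cone)

theorem exp_neg_false {E : ℂ → ℂ} (hE : Differentiable ℂ E) {c : ℝ} (hc : c < 0)
    (h : ∀ t, ‖E t‖ = Real.exp (c * ‖t‖ ^ 2)) : False := by
  have h1 : ‖E 0‖ ≤ Real.exp c := by
    refine Complex.norm_le_of_forall_mem_frontier_norm_le (U := Metric.ball 0 1)
      Metric.isBounded_ball hE.diffContOnCl (fun z hz => ?_) (subset_closure (by simp))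
    rw [frontier_ball (0 : ℂ) one_ne_zero, mem_sphere_zero_iff_norm] at hz
    rw [h, hz]
    simp
  rw [h] at h1
  simp only [norm_zero, ne_eq, OfNat.ofNat_ne_zero, not_false_eq_true, zero_pow, mul_zero,
    Real.exp_zero] at h1
  have h2 : Real.exp c < 1 := by
    rw [← Real.exp_zero]
    exact Real.exp_lt_exp.2 hc
  linarith

theorem exp_zero_of {E : ℂ → ℂ} (hE : Differentiable ℂ E) {c : ℝ}
    (h : ∀ t, ‖E t‖ = Real.exp (c * ‖t‖ ^ 2)) : c = 0 := by
  rcases lt_trichotomy c 0 with hc | hc | hc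
  · exact (exp_neg_false hE hc h).elim
  · exact hc
  · have hne : ∀ t, E t ≠ 0 := fun t h0 => by
      have := h t
      rw [h0, norm_zero] at this
      exact absurd this (Real.exp_pos _).ne
    refine (exp_neg_false (E := fun t => (E t)⁻¹) (hE.inv hne) (c := -c) (by linarith)
      fun t => ?_).elim
    rw [norm_inv, h, ← Real.exp_neg]
    congr 1
    ring

section

variable {n : ℕ} {G : Subgroup ((Fin n → ℂ) ≃ₗ[ℂ] (Fin n → ℂ))} {hG : PresLat G}

theorem kum_le : kum (Fin n) 1 ≤ grp G hG := by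
  rintro f ⟨ζ, l, h1, -, hl, h⟩
  rw [pow_one] at h1
  refine ⟨1, G.one_mem, l, hl, fun v => ?_⟩
  rw [h, h1, one_smul]
  rfl

/-- An element of `G` as an element of the group. -/
def lin (hG : PresLat G) (g : G) : grp G hG :=
  ⟨(g : (Fin n → ℂ) ≃ₗ[ℂ] (Fin n → ℂ)).toAffineEquiv, g, g.2, 0, fun _ => IsGau.zero, fun v => by
    rw [add_zero]; rfl⟩

theorem lin_act (g : G) (v : Fin n → ℂ) :
    act (lin hG g) v = (g : (Fin n → ℂ) ≃ₗ[ℂ] (Fin n → ℂ)) v := rfl

/-- The translation by a lattice vector. -/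
noncomputable def tr (l : Pool.Agent.T6.H34.GK.lat n) : kum (Fin n) 1 :=
  ⟨AffineEquiv.constVAdd ℂ (Fin n → ℂ) l, 1, l, one_pow _, one_pow _, l.2, fun v => by
    rw [one_smul, AffineEquiv.constVAdd_apply, vadd_eq_add, add_comm]⟩

theorem tr_act (l : Pool.Agent.T6.H34.GK.lat n) (v : Fin n → ℂ) : act (tr l) v = v + l := by
  change (l : Fin n → ℂ) +ᵥ v = _
  rw [vadd_eq_add, add_comm]

theorem lat_of_orb {δ : grp G hG} : Lat (act δ (0 : Fin n → ℂ)) := by
  obtain ⟨g, hg, l, hl, h⟩ := δ.2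
  change Lat (δ.1 0)
  rw [h, map_zero, zero_add]
  exact hl

theorem not_orb {v : Fin n → ℂ} (hv : ¬Lat v) (δ : grp G hG) : act δ 0 ≠ v := fun h =>
  hv (h ▸ lat_of_orb)

theorem not_orb' {v : Fin n → ℂ} (hv : ¬Lat v) (δ : kum (Fin n) 1) : act δ 0 ≠ v := by
  intro h
  obtain ⟨ζ, l, -, -, hl, h1⟩ := δ.2
  apply hv
  rw [← h]
  change Lat (δ.1 0)
  rw [h1, smul_zero, zero_add]
  exact hl

theorem not_lat {v : Fin n → ℂ} (h : ∀ δ : grp G hG, act δ 0 ≠ v) : ¬Lat v := fun hv =>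
  h ⟨(tr ⟨v, hv⟩).1, kum_le (tr ⟨v, hv⟩).2⟩ (by
    have := tr_act ⟨v, hv⟩ 0
    rw [zero_add] at this
    exact this)

theorem not_lat' {v : Fin n → ℂ} (h : ∀ δ : kum (Fin n) 1, act δ 0 ≠ v) : ¬Lat v := fun hv =>
  h (tr ⟨v, hv⟩) (by
    have := tr_act ⟨v, hv⟩ 0
    rw [zero_add] at this
    exact this)

/-- The restriction to the translations. -/
def res (L : BlBundle (grp G hG)) : BlBundle (kum (Fin n) 1) where
  e := fun γ v => L.e ⟨γ.1, kum_le γ.2⟩ v
  k := L.k
  holo := fun γ => L.holo _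
  ne_zero := fun γ v => L.ne_zero _ _
  mul := fun γ δ v => L.mul ⟨γ.1, kum_le γ.2⟩ ⟨δ.1, kum_le δ.2⟩ v
  stab := fun γ v h1 h2 => L.stab _ v h1 fun δ => not_orb (not_lat' h2) δ
  exc := fun γ ζ h => L.exc _ ζ h

theorem res_section {L : BlBundle (grp G hG)} {N : ℕ} {s : (Fin n → ℂ) → ℂ}
    (hs : (L.pow N).IsSection s) : ((res L).pow N).IsSection s :=
  ⟨hs.holo, fun γ v => hs.eq ⟨γ.1, kum_le γ.2⟩ v, hs.ord⟩

theorem res_section' {L : BlBundle (grp G hG)} {s : (Fin n → ℂ) → ℂ}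
    (hs : L.IsSection s) : (res L).IsSection s :=
  ⟨hs.holo, fun γ v => hs.eq ⟨γ.1, kum_le γ.2⟩ v, hs.ord⟩

theorem res_semiample {L : BlBundle (grp G hG)} (hL : L.IsSemiample) : (res L).IsSemiample := by
  refine ⟨fun v hv => ?_, fun u hu => ?_⟩
  · obtain ⟨N, hN, s, hs, h0⟩ := hL.out v fun δ => not_orb (not_lat' hv) δ
    exact ⟨N, hN, s, res_section hs, h0⟩
  · obtain ⟨N, hN, s, hs, h0⟩ := hL.exc u hu
    exact ⟨N, hN, s, res_section hs, h0⟩

theorem res_class {L : QBundle (grp G hG)} {x : ((Fin n → ℂ) → (Fin n → ℂ) → ℂ) × ℝ}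
    (hL : IsCls L x) : IsClass LinearMap.id (res L.toBlBundle) x := by
  obtain ⟨⟨h1, F, hF, h2⟩, h3⟩ := hL
  exact ⟨x.1, ⟨h1, F, hF, fun γ v => h2 ⟨γ.1, kum_le γ.2⟩ v⟩, fun _ _ => rfl, h3⟩

theorem NSs_le : NSs (grp G hG) ≤ N1s (kum (Fin n) 1) LinearMap.id := by
  refine Submodule.span_mono ?_
  rintro x ⟨L, hL⟩
  exact ⟨_, res_class hL⟩

/-- The pullback to the blow-up of `E^n`. -/
def up (x : NS (grp G hG)) : N1 (kum (Fin n) 1) (LinearMap.id : (Fin n → ℂ) →ₗ[ℂ] (Fin n → ℂ)) :=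
  ⟨x.1, NSs_le x.2⟩

/-- The pullback as a linear map. -/
def upL : NS (grp G hG) →ₗ[ℝ]
    N1 (kum (Fin n) 1) (LinearMap.id : (Fin n → ℂ) →ₗ[ℂ] (Fin n → ℂ)) where
  toFun := up
  map_add' _ _ := rfl
  map_smul' _ _ := rfl

theorem upL_apply (x : NS (grp G hG)) : upL x = up x := rfl

theorem up_inj : Function.Injective (up (G := G) (hG := hG)) := fun x y h => by
  have h1 : (up x).1 = (up y).1 := by rw [h]
  exact Subtype.ext h1

theorem form_up (x : NS (grp G hG)) : Pool.Agent.R895.form (up x) = form x := rfl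

theorem coef_up (x : NS (grp G hG)) : Pool.Agent.R895.coef (up x) = coef x := rfl

theorem up_semiample {x : NS (grp G hG)} (hx : x ∈ semiample (grp G hG)) :
    up x ∈ Pool.Agent.R895.semiample (kum (Fin n) 1) LinearMap.id := by
  obtain ⟨L, hL, h⟩ := hx
  exact ⟨_, res_class hL, res_semiample h⟩

theorem up_integral {x : NS (grp G hG)} (hx : x ∈ integral (grp G hG)) :
    up x ∈ Pool.Agent.R895.integral (kum (Fin n) 1) LinearMap.id := by
  obtain ⟨L, hL⟩ := hx
  exact ⟨_, res_class hL⟩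

theorem up_effective {x : NS (grp G hG)} (hx : x ∈ effective (grp G hG)) :
    up x ∈ Pool.Agent.R895.effective (kum (Fin n) 1) LinearMap.id := by
  obtain ⟨L, s, hL, hs, h0⟩ := hx
  exact ⟨_, s, res_class hL, res_section' hs, h0⟩

/-- The forms of the classes are invariant under `G`. -/
theorem chern_inv {L : QBundle (grp G hG)} {x : ((Fin n → ℂ) → (Fin n → ℂ) → ℂ) × ℝ}
    (hL : IsCls L x) (g : G) (u w : Fin n → ℂ) :
    x.1 ((g : (Fin n → ℂ) ≃ₗ[ℂ] (Fin n → ℂ)) u) ((g : (Fin n → ℂ) ≃ₗ[ℂ] (Fin n → ℂ)) w)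
      = x.1 u w := by
  obtain ⟨⟨hH, F, hF, h2⟩, -⟩ := hL
  set A : (Fin n → ℂ) ≃ₗ[ℂ] (Fin n → ℂ) := (g : (Fin n → ℂ) ≃ₗ[ℂ] (Fin n → ℂ)) with hA
  have hq : ∀ u, (x.1 (A u) (A u)).re = (x.1 u u).re := by
    intro u
    set E : ℂ → ℂ := fun t => L.e (lin hG g) (t • u) * Complex.exp (F (t • u) - F (A (t • u)))
      with hEdef
    have hlin : Differentiable ℂ fun t : ℂ => t • u := differentiable_id.smul_const u
    have hAd : Differentiable ℂ (A : (Fin n → ℂ) → (Fin n → ℂ)) :=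
      Pool.Agent.T6.H34.GK.differentiable_equiv A
    have hE : Differentiable ℂ E :=
      ((L.holo (lin hG g)).comp hlin).mul
        (((hF.comp hlin).sub ((hF.comp hAd).comp hlin)).cexp)
    have hn : ∀ t : ℂ, ‖E t‖ ^ 2 = Real.exp ((Real.pi * ((x.1 (A u) (A u)).re - (x.1 u u).re)) *
        ‖t‖ ^ 2) := by
      intro t
      have h3 := h2 (lin hG g) (t • u)
      rw [lin_act] at h3
      have h4 : ∀ v : Fin n → ℂ, (x.1 (t • v) (t • v)).re = ‖t‖ ^ 2 * (x.1 v v).re := by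
        intro v
        rw [hH.smul_left, Pool.Agent.W594.SYZ2.TQ.h_smul_right hH, ← mul_assoc,
          Complex.mul_conj, Complex.normSq_eq_norm_sq, Complex.re_ofReal_mul]
      rw [hEdef]
      simp only
      rw [norm_mul, mul_pow, h3, Complex.norm_exp, ← Real.exp_nat_mul, ← Real.exp_add,
        Complex.sub_re]
      congr 1
      have h5 : (x.1 (A (t • u)) (A (t • u))).re = ‖t‖ ^ 2 * (x.1 (A u) (A u)).re := by
        rw [map_smul, h4]
      rw [← hA, h5, h4 u]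
      push_cast
      ring
    have h0 := exp_zero_of hE (c := Real.pi * ((x.1 (A u) (A u)).re - (x.1 u u).re) / 2)
      fun t => by
        have h3 := hn t
        have h4 : Real.exp ((Real.pi * ((x.1 (A u) (A u)).re - (x.1 u u).re)) * ‖t‖ ^ 2) =
            Real.exp (Real.pi * ((x.1 (A u) (A u)).re - (x.1 u u).re) / 2 * ‖t‖ ^ 2) ^ 2 := by
          rw [← Real.exp_nat_mul]
          congr 1
          push_cast
          ring
        rw [h4] at h3
        exact (sq_eq_sq₀ (norm_nonneg _) (Real.exp_pos _).le).1 h3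
    have hpi := Real.pi_pos
    have h6 : Real.pi * ((x.1 (A u) (A u)).re - (x.1 u u).re) = 0 := by linarith
    rcases mul_eq_zero.1 h6 with h7 | h7
    · exact absurd h7 hpi.ne'
    · linarith
  set D : (Fin n → ℂ) → (Fin n → ℂ) → ℂ := fun u w => x.1 (A u) (A w) - x.1 u w with hD
  have hDh : IsHermitian D := by
    refine ⟨fun u v w => ?_, fun a v w => ?_, fun v w => ?_⟩
    · simp only [hD, map_add, hH.add_left]
      ring
    · simp only [hD, map_smul, hH.smul_left]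
      ring
    · simp only [hD, map_sub, ← hH.symm]
  have h1 := cs_of_psd hDh (fun v => by
    simp only [hD, Complex.sub_re, hq, sub_self, le_refl]) u w
  have h3 : (D u u).re = 0 := by simp only [hD, Complex.sub_re, hq, sub_self]
  rw [h3, zero_mul] at h1
  have h4 := Complex.normSq_eq_zero.1 (le_antisymm h1 (Complex.normSq_nonneg _))
  exact sub_eq_zero.1 h4

theorem form_inv (x : NS (grp G hG)) {g : (Fin n → ℂ) ≃ₗ[ℂ] (Fin n → ℂ)} (hg : g ∈ G)
    (u w : Fin n → ℂ) : form x (g u) (g w) = form x u w := by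
  obtain ⟨x, hx⟩ := x
  change x.1 (g u) (g w) = x.1 u w
  induction hx using Submodule.span_induction with
  | mem x hx =>
    obtain ⟨L, hL⟩ := hx
    exact chern_inv hL ⟨g, hg⟩ u w
  | zero => rfl
  | add x y _ _ h1 h2 =>
    simp only [Prod.fst_add, Pi.add_apply, h1, h2]
  | smul t x _ h1 =>
    simp only [Prod.smul_fst, Pi.smul_apply, h1]

end

end Pool.Agent.T6.H34.GE
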